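import Pool.Agent.Q93.Clos.Defs
import Pool.Agent.Q93.Clos.Main

/-!
A pair with a closed-range extension such that neither `ran(A₀)` nor `ran(A)` is closed.
-/

set_option autoImplicit false

namespace Pool.Agent.Results.MP_790317_an.BothRangesNotClosed

open Q93.Clos
open scoped LinearPMap

theorem result : ∀ (𝕜 : Type) [RCLike 𝕜],
    ∃ (H₀ : Type) (_ : NormedAddCommGroup H₀) (_ : InnerProductSpace 𝕜 H₀) (_ : CompleteSpace H₀)
      (H₁ : Type) (_ : NormedAddCommGroup H₁) (_ : InnerProductSpace 𝕜 H₁) (_ : CompleteSpace H₁)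
      (Ac : H₀ →ₗ.[𝕜] H₁) (Bc : H₁ →ₗ.[𝕜] H₀),
      Dense (Ac.domain : Set H₀) ∧ Dense (Bc.domain : Set H₁) ∧
      Ac ≤ -Bc† ∧ Ac.IsClosable ∧ Bc.IsClosable ∧
      HasClosedRangeExtension 𝕜 Ac Bc ∧
      ¬ IsClosed (Set.range Ac.closure) ∧
      ¬ IsClosed (Set.range (-(Bc.closure†))) := by
  intro 𝕜 _
  obtain ⟨Ac, Bc, h⟩ := main (data 𝕜)
  exact ⟨_, _, _, inferInstance, _, _, _, inferInstance, Ac, Bc, h⟩

end Pool.Agent.Results.MP_790317_an.BothRangesNotClosed
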